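import Pool.Agent.H731Z.PC.Defs

namespace Pool.Agent.H731Z.PC

variable {K : Type*} [Field K] {g : Type*} [LieRing g] [LieAlgebra K g]

/-- `P` is the Lie-Poisson bracket of the contraction `k` on its symmetric algebra `S(k)`:
a bilinear biderivation which on `k` is the bracket of `k`. -/
structure IsLiePoisson0 (σ : g ≃ₗ⁅K⁆ g)
    (P : SymmetricAlgebra K g →ₗ[K] SymmetricAlgebra K g →ₗ[K] SymmetricAlgebra K g) : Prop where
  leibniz_left : ∀ a b c, P (a * b) c = a * P b c + b * P a c
  leibniz_right : ∀ a b c, P a (b * c) = b * P a c + c * P a b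
  on_generators : ∀ x y : g, P (SymmetricAlgebra.ι K g x) (SymmetricAlgebra.ι K g y) =
    SymmetricAlgebra.ι K g (cbr σ x y)

/-- The ideal of the polynomial functions `F ∈ S(k) = K[k^*]` vanishing0 on a set `V ⊆ k^*`. -/
noncomputable def vanishing0 (V : Set (Module.Dual K g)) : Ideal (SymmetricAlgebra K g) :=
  ⨅ ξ ∈ V, RingHom.ker (SymmetricAlgebra.lift (ξ : g →ₗ[K] K))

/-- The codim-`n` property: the singular set has codimension at least `n` in `k^*`, the
codimension being the height of its vanishing0 ideal in `K[k^*]`. -/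
def HasCodim0 (σ : g ≃ₗ⁅K⁆ g) (n : ℕ) : Prop :=
  (n : ℕ∞) ≤ (vanishing0 (sing σ)).height

/-- A subalgebra on which the bracket vanishes. -/
def IsComm0 (P : SymmetricAlgebra K g →ₗ[K] SymmetricAlgebra K g →ₗ[K] SymmetricAlgebra K g)
    (A : Subalgebra K (SymmetricAlgebra K g)) : Prop :=
  ∀ a ∈ A, ∀ b ∈ A, P a b = 0

/-- A maximal commutative subalgebra. -/
def IsMaxComm0 (P : SymmetricAlgebra K g →ₗ[K] SymmetricAlgebra K g →ₗ[K] SymmetricAlgebra K g)
    (A : Subalgebra K (SymmetricAlgebra K g)) : Prop :=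
  IsComm0 P A ∧ ∀ B, IsComm0 P B → A ≤ B → B = A

/-- A subalgebra generated by algebraically independent elements. -/
def IsPolynomial0 (A : Subalgebra K (SymmetricAlgebra K g)) : Prop :=
  ∃ s : Set (SymmetricAlgebra K g),
    AlgebraicIndependent K ((↑) : s → SymmetricAlgebra K g) ∧ Algebra.adjoin K s = A

/-- `A` is stable under the algebra endomorphisms of `S(k)` which multiply `g_0` by `s` and
`g_1` by `t`, for all nonzero scalars `s, t`; over an infinite field this says that `A` is
homogeneous for the bigrading of `S(k) = S(g_0) ⊗ S(g_1)`, in particular graded. -/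
def IsBigraded0 (σ : g ≃ₗ⁅K⁆ g) (A : Subalgebra K (SymmetricAlgebra K g)) : Prop :=
  ∀ s t : K, s ≠ 0 → t ≠ 0 → ∀ a ∈ A,
    SymmetricAlgebra.lift (SymmetricAlgebra.ι K g ∘ₗ (s • ev σ + t • od σ)) a ∈ A

end Pool.Agent.H731Z.PC
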