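import Mathlib

/-!
Z2-contractions of a Lie algebra with an involution: bracket, stabilisers, index, singular set.
-/

namespace Pool.Agent.H731Z.PC

variable {K : Type*} [Field K] {g : Type*} [LieRing g] [LieAlgebra K g]

/-- Projection of `g` onto the `+1` eigenspace `g_0` of the involution: `x ↦ (x + σ x) / 2`. -/
noncomputable def ev (σ : g ≃ₗ⁅K⁆ g) : g →ₗ[K] g :=
  (2 : K)⁻¹ • (LinearMap.id + σ.toLinearEquiv.toLinearMap)

/-- Projection of `g` onto the `-1` eigenspace `g_1` of the involution: `x ↦ (x - σ x) / 2`. -/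
noncomputable def od (σ : g ≃ₗ⁅K⁆ g) : g →ₗ[K] g :=
  (2 : K)⁻¹ • (LinearMap.id - σ.toLinearEquiv.toLinearMap)

/-- The bracket of the contraction `k = g_0 ⋉ g_1` on the vector space `g = g_0 ⊕ g_1`:
`[x_0 + x_1, y_0 + y_1] = [x_0, y_0] + [x_0, y_1] + [x_1, y_0]`, so `g_1` is an abelian ideal
and `g_0` acts on it as in `g`. -/
noncomputable def cbr (σ : g ≃ₗ⁅K⁆ g) (x y : g) : g :=
  ⁅ev σ x, ev σ y⁆ + ⁅ev σ x, od σ y⁆ + ⁅od σ x, ev σ y⁆

/-- The stabiliser `k^ξ = {x : ξ [x, y] = 0 for all y}` of `ξ ∈ k^*` for the coadjoint action of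
the contraction. -/
def stab (σ : g ≃ₗ⁅K⁆ g) (ξ : Module.Dual K g) : Submodule K g where
  carrier := {x | ∀ y, ξ (cbr σ x y) = 0}
  zero_mem' := by intro y; simp [cbr]
  add_mem' := by
    intro a b ha hb y
    have h : cbr σ (a + b) y = cbr σ a y + cbr σ b y := by
      simp only [cbr, map_add, add_lie]; abel
    rw [h, map_add, ha y, hb y, add_zero]
  smul_mem' := by
    intro r a ha y
    have h : cbr σ (r • a) y = r • cbr σ a y := by
      simp only [cbr, map_smul, smul_lie, smul_add]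
    rw [h, map_smul, ha y, smul_zero]

/-- The index of the contraction: the least dimension of a stabiliser. -/
noncomputable def index (σ : g ≃ₗ⁅K⁆ g) : ℕ :=
  ⨅ ξ : Module.Dual K g, Module.finrank K (stab σ ξ)

/-- The singular set `k^*_sing`: the `ξ` that are not regular. -/
def sing (σ : g ≃ₗ⁅K⁆ g) : Set (Module.Dual K g) :=
  {ξ | Module.finrank K (stab σ ξ) ≠ index σ}

end Pool.Agent.H731Z.PC
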