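import Pool.Agent.H731Z.PC.Gen

set_option linter.unusedSectionVars false

namespace Pool.Agent.H731Z.PC

/-- `sl_2 ⊗ K[t]/(t^2 - 1) = sl_2 ⊕ sl_2`, coordinates for the basis `E, F, H, Et, Ft, Ht`. -/
def G (K : Type*) : Type _ := Fin 6 → K

variable {K : Type*} [Field K]

instance : AddCommGroup (G K) := inferInstanceAs (AddCommGroup (Fin 6 → K))
instance : Module K (G K) := inferInstanceAs (Module K (Fin 6 → K))
instance : Module.Finite K (G K) := inferInstanceAs (Module.Finite K (Fin 6 → K))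

def G.c (v : G K) (i : Fin 6) : K := (show Fin 6 → K from v) i
def G.mk (a0 a1 a2 a3 a4 a5 : K) : G K := (![a0, a1, a2, a3, a4, a5] : Fin 6 → K)

@[simp] lemma G.c0 (a0 a1 a2 a3 a4 a5 : K) : (G.mk a0 a1 a2 a3 a4 a5).c 0 = a0 := rfl
@[simp] lemma G.c1 (a0 a1 a2 a3 a4 a5 : K) : (G.mk a0 a1 a2 a3 a4 a5).c 1 = a1 := rfl
@[simp] lemma G.c2 (a0 a1 a2 a3 a4 a5 : K) : (G.mk a0 a1 a2 a3 a4 a5).c 2 = a2 := rfl
@[simp] lemma G.c3 (a0 a1 a2 a3 a4 a5 : K) : (G.mk a0 a1 a2 a3 a4 a5).c 3 = a3 := rfl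
@[simp] lemma G.c4 (a0 a1 a2 a3 a4 a5 : K) : (G.mk a0 a1 a2 a3 a4 a5).c 4 = a4 := rfl
@[simp] lemma G.c5 (a0 a1 a2 a3 a4 a5 : K) : (G.mk a0 a1 a2 a3 a4 a5).c 5 = a5 := rfl
@[simp] lemma G.c_add (v w : G K) (i : Fin 6) : (v + w).c i = v.c i + w.c i := rfl
@[simp] lemma G.c_sub (v w : G K) (i : Fin 6) : (v - w).c i = v.c i - w.c i := rfl
@[simp] lemma G.c_neg (v : G K) (i : Fin 6) : (-v).c i = - v.c i := rfl
@[simp] lemma G.c_zero (i : Fin 6) : (0 : G K).c i = 0 := rfl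
@[simp] lemma G.c_smul (r : K) (v : G K) (i : Fin 6) : (r • v).c i = r * v.c i := rfl

lemma G.ext6 {v w : G K} (h0 : v.c 0 = w.c 0) (h1 : v.c 1 = w.c 1) (h2 : v.c 2 = w.c 2)
    (h3 : v.c 3 = w.c 3) (h4 : v.c 4 = w.c 4) (h5 : v.c 5 = w.c 5) : v = w := by
  funext i
  fin_cases i
  exacts [h0, h1, h2, h3, h4, h5]

def G.br (v w : G K) : G K :=
  G.mk (2 * (v.c 2 * w.c 0 - v.c 0 * w.c 2) + 2 * (v.c 5 * w.c 3 - v.c 3 * w.c 5))
    (-2 * (v.c 2 * w.c 1 - v.c 1 * w.c 2) + -2 * (v.c 5 * w.c 4 - v.c 4 * w.c 5))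
    ((v.c 0 * w.c 1 - v.c 1 * w.c 0) + (v.c 3 * w.c 4 - v.c 4 * w.c 3))
    (2 * (v.c 2 * w.c 3 - v.c 0 * w.c 5) + 2 * (v.c 5 * w.c 0 - v.c 3 * w.c 2))
    (-2 * (v.c 2 * w.c 4 - v.c 1 * w.c 5) + -2 * (v.c 5 * w.c 1 - v.c 4 * w.c 2))
    ((v.c 0 * w.c 4 - v.c 1 * w.c 3) + (v.c 3 * w.c 1 - v.c 4 * w.c 0))

instance : LieRing (G K) where
  bracket := G.br
  add_lie u v w := by
    show G.br _ _ = G.br _ _ + G.br _ _
    apply G.ext6 <;> simp [G.br] <;> ring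
  lie_add u v w := by
    show G.br _ _ = G.br _ _ + G.br _ _
    apply G.ext6 <;> simp [G.br] <;> ring
  lie_self u := by
    show G.br _ _ = 0
    apply G.ext6 <;> simp only [G.br, G.c0, G.c1, G.c2, G.c3, G.c4, G.c5, G.c_zero] <;> ring
  leibniz_lie u v w := by
    show G.br _ (G.br _ _) = G.br (G.br _ _) _ + G.br _ (G.br _ _)
    apply G.ext6 <;> simp only [G.br, G.c0, G.c1, G.c2, G.c3, G.c4, G.c5, G.c_add] <;> ring

lemma G.lie_def (v w : G K) : ⁅v, w⁆ = G.br v w := rfl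

instance : LieAlgebra K (G K) where
  lie_smul t v w := by
    show G.br _ _ = t • G.br _ _
    apply G.ext6 <;> simp only [G.br, G.c0, G.c1, G.c2, G.c3, G.c4, G.c5, G.c_smul] <;> ring

noncomputable def G.b : Module.Basis (Fin 6) K (G K) := Pi.basisFun K (Fin 6)

lemma G.b_repr (v : G K) (i : Fin 6) : G.b.repr v i = v.c i := Pi.basisFun_repr K (Fin 6) v i

lemma G.b_c (i j : Fin 6) : ((G.b : Module.Basis (Fin 6) K (G K)) i).c j = if i = j then 1 else 0 := by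
  rw [← G.b_repr, Module.Basis.repr_self, Finsupp.single_apply]

lemma G.b0 : (G.b 0 : G K) = G.mk 1 0 0 0 0 0 := by apply G.ext6 <;> simp [G.b_c]
lemma G.b1 : (G.b 1 : G K) = G.mk 0 1 0 0 0 0 := by apply G.ext6 <;> simp [G.b_c]
lemma G.b2 : (G.b 2 : G K) = G.mk 0 0 1 0 0 0 := by apply G.ext6 <;> simp [G.b_c]
lemma G.b3 : (G.b 3 : G K) = G.mk 0 0 0 1 0 0 := by apply G.ext6 <;> simp [G.b_c]
lemma G.b4 : (G.b 4 : G K) = G.mk 0 0 0 0 1 0 := by apply G.ext6 <;> simp [G.b_c]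
lemma G.b5 : (G.b 5 : G K) = G.mk 0 0 0 0 0 1 := by apply G.ext6 <;> simp [G.b_c]

lemma G.expand (v : G K) : v = v.c 0 • G.b 0 + v.c 1 • G.b 1 + v.c 2 • G.b 2 + v.c 3 • G.b 3 +
    v.c 4 • G.b 4 + v.c 5 • G.b 5 := by
  apply G.ext6 <;> simp [G.b_c]

lemma G.killing (v w : G K) : killingForm K (G K) v w =
    8 * (v.c 0 * w.c 1 + v.c 1 * w.c 0 + 2 * v.c 2 * w.c 2 +
      v.c 3 * w.c 4 + v.c 4 * w.c 3 + 2 * v.c 5 * w.c 5) := by
  rw [killingForm_apply_apply, LinearMap.trace_eq_matrix_trace K G.b, Matrix.trace,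
    Fin.sum_univ_six]
  simp only [Matrix.diag_apply, LinearMap.toMatrix_apply, LinearMap.comp_apply,
    LieAlgebra.ad_apply, G.b_repr, G.lie_def, G.b0, G.b1, G.b2, G.b3, G.b4, G.b5, G.br,
    G.c0, G.c1, G.c2, G.c3, G.c4, G.c5]
  ring

instance [CharZero K] : LieAlgebra.IsKilling K (G K) where
  killingCompl_top_eq_bot := by
    rw [eq_bot_iff]
    intro v hv
    rw [LieIdeal.mem_killingCompl] at hv
    have h0 := hv (G.b 0) (LieSubmodule.mem_top _)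
    have h1 := hv (G.b 1) (LieSubmodule.mem_top _)
    have h2 := hv (G.b 2) (LieSubmodule.mem_top _)
    have h3 := hv (G.b 3) (LieSubmodule.mem_top _)
    have h4 := hv (G.b 4) (LieSubmodule.mem_top _)
    have h5 := hv (G.b 5) (LieSubmodule.mem_top _)
    simp [G.killing, G.b_c] at h0 h1 h2 h3 h4 h5
    rw [LieSubmodule.mem_bot]
    apply G.ext6 <;> simp [*]

def G.sig (v : G K) : G K := G.mk (v.c 0) (v.c 1) (v.c 2) (-v.c 3) (-v.c 4) (-v.c 5)

def G.σ : G K ≃ₗ⁅K⁆ G K where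
  toFun := G.sig
  invFun := G.sig
  map_add' v w := by apply G.ext6 <;> simp [G.sig] <;> ring
  map_smul' r v := by apply G.ext6 <;> simp [G.sig]
  map_lie' := by
    intro v w
    simp only [G.lie_def]
    apply G.ext6 <;> simp only [G.sig, G.br, G.c0, G.c1, G.c2, G.c3, G.c4, G.c5] <;> ring
  left_inv v := by apply G.ext6 <;> simp [G.sig]
  right_inv v := by apply G.ext6 <;> simp [G.sig]

lemma G.σ_apply (v : G K) : G.σ v = G.sig v := rfl

variable [CharZero K]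

lemma G.ev_apply (v : G K) : ev G.σ v = G.mk (v.c 0) (v.c 1) (v.c 2) 0 0 0 := by
  show (2 : K)⁻¹ • (v + G.sig v) = _
  apply G.ext6 <;> simp [G.sig] <;> field_simp <;> ring

lemma G.od_apply (v : G K) : od G.σ v = G.mk 0 0 0 (v.c 3) (v.c 4) (v.c 5) := by
  show (2 : K)⁻¹ • (v - G.sig v) = _
  apply G.ext6 <;> simp [G.sig] <;> field_simp <;> ring

lemma G.cbr_apply (v w : G K) : cbr G.σ v w =
  G.mk (2 * (v.c 2 * w.c 0 - v.c 0 * w.c 2))
    (-2 * (v.c 2 * w.c 1 - v.c 1 * w.c 2))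
    ((v.c 0 * w.c 1 - v.c 1 * w.c 0))
    (2 * (v.c 2 * w.c 3 - v.c 0 * w.c 5) + 2 * (v.c 5 * w.c 0 - v.c 3 * w.c 2))
    (-2 * (v.c 2 * w.c 4 - v.c 1 * w.c 5) + -2 * (v.c 5 * w.c 1 - v.c 4 * w.c 2))
    ((v.c 0 * w.c 4 - v.c 1 * w.c 3) + (v.c 3 * w.c 1 - v.c 4 * w.c 0)) := by
  simp only [cbr, G.ev_apply, G.od_apply, G.lie_def]
  apply G.ext6 <;> simp only [G.br, G.c0, G.c1, G.c2, G.c3, G.c4, G.c5, G.c_add] <;> ring

omit [CharZero K] in
lemma G.lin_mk {M : Type*} [AddCommGroup M] [Module K M] (ξ : G K →ₗ[K] M)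
    (a0 a1 a2 a3 a4 a5 : K) :
    ξ (G.mk a0 a1 a2 a3 a4 a5) = a0 • ξ (G.b 0) + a1 • ξ (G.b 1) + a2 • ξ (G.b 2) +
      a3 • ξ (G.b 3) + a4 • ξ (G.b 4) + a5 • ξ (G.b 5) := by
  rw [G.expand (G.mk a0 a1 a2 a3 a4 a5)]
  simp

lemma G.stab_ge (ξ : Module.Dual K (G K)) : 2 ≤ Module.finrank K (stab G.σ ξ) := by
  by_cases hp : ξ (G.b 3) = 0 ∧ ξ (G.b 4) = 0 ∧ ξ (G.b 5) = 0
  · obtain ⟨h3, h4, h5⟩ := hp
    have m1 : G.b 3 ∈ stab G.σ ξ := by
      rw [mem_stab]; intro y; rw [G.cbr_apply, G.lin_mk]; simp [G.b_c, h3, h4, h5]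
    have m2 : G.b 4 ∈ stab G.σ ξ := by
      rw [mem_stab]; intro y; rw [G.cbr_apply, G.lin_mk]; simp [G.b_c, h3, h4, h5]
    have li : LinearIndependent K ![(⟨_, m1⟩ : stab G.σ ξ), ⟨_, m2⟩] := by
      rw [LinearIndependent.pair_iff]
      intro s t hst
      have h := congrArg Subtype.val hst
      have e3 := congrArg (fun v : G K => v.c 3) h
      have e4 := congrArg (fun v : G K => v.c 4) h
      simp [G.b_c] at e3 e4
      exact ⟨e3, e4⟩
    simpa using li.fintype_card_le_finrank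
  · have m1 : G.mk (2 * ξ (G.b 4)) (2 * ξ (G.b 3)) (ξ (G.b 5)) (2 * ξ (G.b 1)) (2 * ξ (G.b 0))
        (ξ (G.b 2)) ∈ stab G.σ ξ := by
      rw [mem_stab]; intro y; rw [G.cbr_apply, G.lin_mk]
      simp only [G.c0, G.c1, G.c2, G.c3, G.c4, G.c5, smul_eq_mul]; ring
    have m2 : G.mk 0 0 0 (2 * ξ (G.b 4)) (2 * ξ (G.b 3)) (ξ (G.b 5)) ∈ stab G.σ ξ := by
      rw [mem_stab]; intro y; rw [G.cbr_apply, G.lin_mk]
      simp only [G.c0, G.c1, G.c2, G.c3, G.c4, G.c5, smul_eq_mul]; ring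
    have li : LinearIndependent K ![(⟨_, m1⟩ : stab G.σ ξ), ⟨_, m2⟩] := by
      rw [LinearIndependent.pair_iff]
      intro s t hst
      have h := congrArg Subtype.val hst
      have e0 := congrArg (fun v : G K => v.c 0) h
      have e1 := congrArg (fun v : G K => v.c 1) h
      have e2 := congrArg (fun v : G K => v.c 2) h
      have e3 := congrArg (fun v : G K => v.c 3) h
      have e4 := congrArg (fun v : G K => v.c 4) h
      have e5 := congrArg (fun v : G K => v.c 5) h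
      simp at e0 e1 e2 e3 e4 e5
      have hs : s = 0 := by
        by_contra hs
        exact hp ⟨e1.resolve_left hs, e0.resolve_left hs, e2.resolve_left hs⟩
      subst hs
      simp at e3 e4 e5
      refine ⟨rfl, ?_⟩
      by_contra ht
      exact hp ⟨e4.resolve_left ht, e3.resolve_left ht, e5.resolve_left ht⟩
    simpa using li.fintype_card_le_finrank

lemma G.stab_le (ξ : Module.Dual K (G K))
    (hp : ¬ (ξ (G.b 3) = 0 ∧ ξ (G.b 4) = 0 ∧ ξ (G.b 5) = 0)) :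
    Module.finrank K (stab G.σ ξ) ≤ 2 := by
  have key : ∃ i j : Fin 6, ∀ v ∈ stab G.σ ξ, v.c i = 0 → v.c j = 0 → v = 0 := by
    have eqs : ∀ v ∈ stab G.σ ξ,
        (2 * v.c 2 * ξ (G.b 3) - v.c 1 * ξ (G.b 5) = 0) ∧
        (-2 * v.c 2 * ξ (G.b 4) + v.c 0 * ξ (G.b 5) = 0) ∧
        (-2 * v.c 0 * ξ (G.b 3) + 2 * v.c 1 * ξ (G.b 4) = 0) ∧
        (2 * v.c 2 * ξ (G.b 0) - v.c 1 * ξ (G.b 2) + 2 * v.c 5 * ξ (G.b 3) - v.c 4 * ξ (G.b 5) = 0) ∧
        (-2 * v.c 2 * ξ (G.b 1) + v.c 0 * ξ (G.b 2) - 2 * v.c 5 * ξ (G.b 4) + v.c 3 * ξ (G.b 5) = 0) ∧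
        (-2 * v.c 0 * ξ (G.b 0) + 2 * v.c 1 * ξ (G.b 1) - 2 * v.c 3 * ξ (G.b 3) +
          2 * v.c 4 * ξ (G.b 4) = 0) := by
      intro v hv
      rw [mem_stab] at hv
      have h0 := hv (G.b 0)
      have h1 := hv (G.b 1)
      have h2 := hv (G.b 2)
      have h3 := hv (G.b 3)
      have h4 := hv (G.b 4)
      have h5 := hv (G.b 5)
      rw [G.cbr_apply, G.lin_mk] at h0 h1 h2 h3 h4 h5
      simp [G.b_c] at h0 h1 h2 h3 h4 h5
      refine ⟨?_, ?_, ?_, ?_, ?_, ?_⟩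
      · linear_combination h3
      · linear_combination h4
      · linear_combination h5
      · linear_combination h0
      · linear_combination h1
      · linear_combination h2
    by_cases h3 : ξ (G.b 3) = 0
    · by_cases h4 : ξ (G.b 4) = 0
      · have h5 : ξ (G.b 5) ≠ 0 := fun h => hp ⟨h3, h4, h⟩
        refine ⟨2, 5, fun v hv a b => ?_⟩
        obtain ⟨e1, e2, e3, e4, e5, e6⟩ := eqs v hv
        have v1 : v.c 1 = 0 := by simpa [a, h5] using e1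
        have v0 : v.c 0 = 0 := by simpa [a, h5] using e2
        have v4 : v.c 4 = 0 := by simpa [a, b, v1, h5] using e4
        have v3 : v.c 3 = 0 := by simpa [a, b, v0, h5] using e5
        apply G.ext6 <;> simp [*]
      · refine ⟨0, 3, fun v hv a b => ?_⟩
        obtain ⟨e1, e2, e3, e4, e5, e6⟩ := eqs v hv
        have v2 : v.c 2 = 0 := by simpa [a, h4] using e2
        have v1 : v.c 1 = 0 := by simpa [a, h4] using e3
        have v5 : v.c 5 = 0 := by simpa [a, b, v2, h4] using e5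
        have v4 : v.c 4 = 0 := by simpa [a, b, v1, h4] using e6
        apply G.ext6 <;> simp [*]
    · refine ⟨1, 4, fun v hv a b => ?_⟩
      obtain ⟨e1, e2, e3, e4, e5, e6⟩ := eqs v hv
      have v2 : v.c 2 = 0 := by simpa [a, h3] using e1
      have v0 : v.c 0 = 0 := by simpa [a, h3] using e3
      have v5 : v.c 5 = 0 := by simpa [a, b, v2, h3] using e4
      have v3 : v.c 3 = 0 := by simpa [a, b, v0, h3] using e6
      apply G.ext6 <;> simp [*]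
  obtain ⟨i, j, hij⟩ := key
  let L : stab G.σ ξ →ₗ[K] K × K :=
    { toFun := fun v => (v.1.c i, v.1.c j)
      map_add' := fun _ _ => rfl
      map_smul' := fun _ _ => rfl }
  have hL : Function.Injective L := by
    rw [injective_iff_map_eq_zero]
    intro v hv
    exact Subtype.ext (hij v.1 v.2 (congrArg Prod.fst hv) (congrArg Prod.snd hv))
  simpa using LinearMap.finrank_le_finrank_of_injective hL

lemma G.index_eq : index (G.σ : G K ≃ₗ⁅K⁆ G K) = 2 := by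
  apply le_antisymm
  · refine le_trans (ciInf_le (OrderBot.bddBelow _) (G.b.coord 3)) (G.stab_le _ ?_)
    simp
  · exact le_ciInf fun ξ => G.stab_ge ξ

lemma G.sing_sub (ξ : Module.Dual K (G K)) (h : ξ ∈ sing G.σ) :
    ξ (G.b 3) = 0 ∧ ξ (G.b 4) = 0 ∧ ξ (G.b 5) = 0 := by
  by_contra hp
  exact h (by rw [G.index_eq]; exact le_antisymm (G.stab_le ξ hp) (G.stab_ge ξ))

end Pool.Agent.H731Z.PC
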