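import Pool.Agent.H731Z.PC.Defs

/-!
The symmetric algebra under a short name, the Lie-Poisson bracket of the contraction on it,
codimension of the singular set, commutative subalgebras.
-/

namespace Pool.Agent.H731Z.PC

/-- The symmetric algebra `S(g)` of the vector space `g`. -/
def Sy (K : Type*) [Field K] (g : Type*) [LieRing g] [LieAlgebra K g] : Type _ :=
  SymmetricAlgebra K g

variable {K : Type*} [Field K] {g : Type*} [LieRing g] [LieAlgebra K g]

/-- The usual commutative ring structure of the symmetric algebra. -/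
noncomputable instance syRing : CommRing (Sy K g) :=
  inferInstanceAs (CommRing (SymmetricAlgebra K g))

/-- The usual `K`-algebra structure of the symmetric algebra. -/
noncomputable instance syAlg : Algebra K (Sy K g) :=
  inferInstanceAs (Algebra K (SymmetricAlgebra K g))

/-- The inclusion of `g` into its symmetric algebra. -/
noncomputable def inc : g →ₗ[K] Sy K g := SymmetricAlgebra.ι K g

/-- The algebra map out of the symmetric algebra which extends a linear map. -/
noncomputable def extend {A : Type*} [CommRing A] [Algebra K A] (f : g →ₗ[K] A) :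
    Sy K g →ₐ[K] A := SymmetricAlgebra.lift f

/-- `P` is the Lie-Poisson bracket of the contraction `k` on its symmetric algebra `S(k)`:
a bilinear biderivation which on `k` is the bracket of `k`. -/
structure IsLiePoisson (σ : g ≃ₗ⁅K⁆ g) (P : Sy K g → Sy K g → Sy K g) : Prop where
  add_left : ∀ a b c, P (a + b) c = P a c + P b c
  add_right : ∀ a b c, P a (b + c) = P a b + P a c
  const_mul_left : ∀ (r : K) a c, P (algebraMap K (Sy K g) r * a) c = algebraMap K (Sy K g) r * P a c
  const_mul_right : ∀ (r : K) a c, P a (algebraMap K (Sy K g) r * c) = algebraMap K (Sy K g) r * P a c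
  leibniz_left : ∀ a b c, P (a * b) c = a * P b c + b * P a c
  leibniz_right : ∀ a b c, P a (b * c) = b * P a c + c * P a b
  on_generators : ∀ x y : g, P (inc x) (inc y) = inc (cbr σ x y)

/-- The ideal of the polynomial functions `F ∈ S(k) = K[k^*]` vanishing on a set `V ⊆ k^*`. -/
noncomputable def vanishing (V : Set (Module.Dual K g)) : Ideal (Sy K g) :=
  ⨅ ξ ∈ V, RingHom.ker (extend (ξ : g →ₗ[K] K))

/-- The codim-`n` property: the singular set has codimension at least `n` in `k^*`, the
codimension being the height of its vanishing ideal in `K[k^*]`. -/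
def HasCodim (σ : g ≃ₗ⁅K⁆ g) (n : ℕ) : Prop :=
  (n : ℕ∞) ≤ (vanishing (sing σ)).height

/-- A subalgebra on which the bracket vanishes. -/
def IsComm (P : Sy K g → Sy K g → Sy K g) (A : Subalgebra K (Sy K g)) : Prop :=
  ∀ a ∈ A, ∀ b ∈ A, P a b = 0

/-- A maximal commutative subalgebra. -/
def IsMaxComm (P : Sy K g → Sy K g → Sy K g) (A : Subalgebra K (Sy K g)) : Prop :=
  IsComm P A ∧ ∀ B, IsComm P B → A ≤ B → B = A

/-- Maximal dimension: the transcendence degree of `A` is `b(k) = (dim k + ind k) / 2`. -/
def HasMaxDim (σ : g ≃ₗ⁅K⁆ g) (A : Subalgebra K (Sy K g)) : Prop :=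
  2 * Algebra.trdeg K A = (Module.finrank K g + index σ : ℕ)

/-- A subalgebra generated by algebraically independent elements. -/
def IsPolynomial (A : Subalgebra K (Sy K g)) : Prop :=
  ∃ s : Set (Sy K g), AlgebraicIndependent K ((↑) : s → Sy K g) ∧ Algebra.adjoin K s = A

/-- The algebra endomorphism of `S(k)` which multiplies `g_0` by `s` and `g_1` by `t`. -/
noncomputable def scaling (σ : g ≃ₗ⁅K⁆ g) (s t : K) : Sy K g →ₐ[K] Sy K g :=
  extend (inc ∘ₗ (s • ev σ + t • od σ))

/-- `A` is stable under the scalings of `g_0` by `s` and `g_1` by `t`, for all nonzero scalars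
`s, t`; over an infinite field this says that `A` is homogeneous for the bigrading of
`S(k) = S(g_0) ⊗ S(g_1)`, in particular graded. -/
def IsBigraded (σ : g ≃ₗ⁅K⁆ g) (A : Subalgebra K (Sy K g)) : Prop :=
  ∀ s t : K, s ≠ 0 → t ≠ 0 → ∀ a ∈ A, scaling σ s t a ∈ A

end Pool.Agent.H731Z.PC
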