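import Pool.Agent.H731Z.PC.Main
import Pool.Agent.H731Z.PC.Stmt

namespace Pool.Agent.H731Z.PC

section
variable {K : Type*} [Field K] {g : Type*} [LieRing g] [LieAlgebra K g] {σ : g ≃ₗ⁅K⁆ g}

lemma IsLiePoisson0.toNew
    {P : SymmetricAlgebra K g →ₗ[K] SymmetricAlgebra K g →ₗ[K] SymmetricAlgebra K g}
    (h : IsLiePoisson0 σ P) :
    IsLiePoisson σ (fun a b : Sy K g => (P a b : SymmetricAlgebra K g)) where
  add_left a b c := LinearMap.congr_fun (P.map_add a b) c
  add_right a b c := (P a).map_add b c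
  const_mul_left r a c := by
    have := h.leibniz_left (algebraMap K _ r) a c
    rw [h.left_algebraMap, mul_zero, add_zero] at this
    exact this
  const_mul_right r a c := by
    have := h.leibniz_right a (algebraMap K _ r) c
    rw [h.right_algebraMap, mul_zero, add_zero] at this
    exact this
  leibniz_left := h.leibniz_left
  leibniz_right := h.leibniz_right
  on_generators := h.on_generators

lemma IsLiePoisson.toOld {P : Sy K g → Sy K g → Sy K g} (h : IsLiePoisson σ P) :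
    ∃ Q : SymmetricAlgebra K g →ₗ[K] SymmetricAlgebra K g →ₗ[K] SymmetricAlgebra K g,
      IsLiePoisson0 σ Q ∧ ∀ a b, Q a b = P a b := by
  let Q : Sy K g →ₗ[K] Sy K g →ₗ[K] Sy K g := LinearMap.mk₂ K P h.add_left
    (fun r a c => by rw [Algebra.smul_def, Algebra.smul_def, h.const_mul_left]) h.add_right
    (fun r a c => by rw [Algebra.smul_def, Algebra.smul_def, h.const_mul_right])
  exact ⟨Q, ⟨h.leibniz_left, h.leibniz_right, h.on_generators⟩, fun _ _ => rfl⟩

end

universe u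

theorem final (K : Type u) [Field K] [CharZero K] :
    ∃ (g : Type u) (_ : LieRing g) (_ : LieAlgebra K g) (σ : g ≃ₗ⁅K⁆ g),
      Module.Finite K g ∧ LieAlgebra.IsSemisimple K g ∧ (∀ x, σ (σ x) = x) ∧ (∃ x, σ x ≠ x) ∧
      HasCodim σ 3 ∧
      ∃ P, IsLiePoisson σ P ∧ (∀ P', IsLiePoisson σ P' → P' = P) ∧
        ∃ A : Subalgebra K (Sy K g), IsMaxComm P A ∧ HasMaxDim σ A ∧ IsBigraded σ A ∧
          ¬ IsPolynomial A := by
  obtain ⟨g, i1, i2, σ, h1, h2, h3, h4, h5, P, h6, h7, A, h8, h9, h10, h11⟩ := main K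
  refine ⟨g, i1, i2, σ, h1, h2, h3, h4, h5, _, h6.toNew, ?_, A, h8, h9, h10, h11⟩
  intro P' hP'
  obtain ⟨Q, hQ, e⟩ := hP'.toOld
  funext a b
  rw [← e, h7 Q hQ]

end Pool.Agent.H731Z.PC
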