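import Pool.Agent.H731Z.PC.Aux0

namespace Pool.Agent.H731Z.PC

open Polynomial

/-- A derivation given as an additive map with the Leibniz rule. -/
structure IsDer {R : Type*} [CommRing R] (D : R → R) : Prop where
  add : ∀ a b, D (a + b) = D a + D b
  mul : ∀ a b, D (a * b) = a * D b + b * D a

lemma IsDer.zero {R : Type*} [CommRing R] {D : R → R} (h : IsDer D) : D 0 = 0 := by
  have := h.add 0 0
  simpa using this

lemma IsDer.one {R : Type*} [CommRing R] {D : R → R} (h : IsDer D) : D 1 = 0 := by
  have := h.mul 1 1
  simpa using this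

lemma IsDer.pow {R : Type*} [CommRing R] {D : R → R} (h : IsDer D) (u : R) (n : ℕ) :
    D (u ^ (n + 1)) = ((n : R) + 1) * u ^ n * D u := by
  induction n with
  | zero => simp
  | succ n ih => rw [pow_succ, h.mul, ih]; push_cast; ring

lemma IsDer.aeval {B R : Type*} [CommRing B] [CommRing R] [Algebra B R] {D : R → R}
    (h : IsDer D) (hB : ∀ b : B, D (algebraMap B R b) = 0) (u : R) (p : B[X]) :
    D (Polynomial.aeval u p) = Polynomial.aeval u (derivative p) * D u := by
  induction p using Polynomial.induction_on' with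
  | add p q hp hq => simp only [map_add, h.add, hp, hq]; ring
  | monomial n a =>
    cases n with
    | zero => simp [hB]
    | succ n =>
      rw [Polynomial.aeval_monomial, h.mul, hB, h.pow, derivative_monomial_succ,
        Polynomial.aeval_monomial]
      simp only [map_mul, map_add, map_natCast, map_one]
      ring

lemma IsDer.transcendental {B R : Type*} [CommRing B] [CommRing R] [IsDomain R] [CharZero R]
    [Algebra B R] (hinj : Function.Injective (algebraMap B R)) {D : R → R}
    (h : IsDer D) (hB : ∀ b : B, D (algebraMap B R b) = 0) {u : R} (hu : D u ≠ 0) :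
    Transcendental B u := by
  have : IsDomain B := Function.Injective.isDomain _ hinj
  have : CharZero B := ⟨fun a b hab => by
    have := congrArg (algebraMap B R) hab
    simpa using this⟩
  rw [transcendental_iff]
  intro p
  induction hn : p.natDegree using Nat.strong_induction_on generalizing p with
  | _ n ih =>
    intro hp
    have key : p.natDegree = 0 := by
      by_contra h0
      have h1 : Polynomial.aeval u (derivative p) = 0 := by
        have := h.aeval hB u p
        rw [hp, h.zero] at this
        exact (mul_eq_zero.1 this.symm).resolve_right hu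
      have h2 := ih _ (hn ▸ natDegree_derivative_lt h0) (derivative p) rfl h1
      exact h0 (Polynomial.derivative_eq_zero.1 h2)
    rw [eq_C_of_natDegree_eq_zero key] at hp ⊢
    simp only [aeval_C] at hp
    rw [hinj (hp.trans (map_zero _).symm)]
    simp

lemma IsDer.adjoin {B R : Type*} [CommRing B] [CommRing R] [Algebra B R] {D : R → R}
    (h : IsDer D) (hB : ∀ b : B, D (algebraMap B R b) = 0) (s : Set R) (hs : ∀ a ∈ s, D a = 0) :
    ∀ a ∈ Algebra.adjoin B s, D a = 0 := by
  intro a ha
  induction ha using Algebra.adjoin_induction with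
  | mem a ha => exact hs a ha
  | algebraMap b => exact hB b
  | add a b _ _ ha hb => rw [h.add, ha, hb, add_zero]
  | mul a b _ _ ha hb => rw [h.mul, ha, hb]; simp

/-- Triangular system of derivations gives algebraic independence. -/
lemma algInd_of_der {B R : Type*} [CommRing B] [CommRing R] [IsDomain R] [CharZero R]
    [Algebra B R] (hinj : Function.Injective (algebraMap B R)) :
    ∀ (n : ℕ) (y : Fin n → R) (D : Fin n → R → R), (∀ i, IsDer (D i)) →
      (∀ i b, D i (algebraMap B R b) = 0) → (∀ i j, i < j → D i (y j) = 0) →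
      (∀ i, D i (y i) ≠ 0) → AlgebraicIndependent B y := by
  intro n
  induction n with
  | zero =>
    intro y _ _ _ _ _
    exact (algebraicIndependent_empty_type_iff).2 hinj
  | succ n ih =>
    intro y D h1 h2 h3 h4
    have h5 : AlgebraicIndependent B (fun i : Fin n => y i.succ) :=
      ih _ (fun i => D i.succ) (fun i => h1 _) (fun i => h2 _)
        (fun i j hij => h3 _ _ (Fin.succ_lt_succ_iff.2 hij)) (fun i => h4 _)
    have h6 : Transcendental (Algebra.adjoin B (Set.range fun i : Fin n => y i.succ)) (y 0) := by
      refine (h1 0).transcendental Subtype.val_injective ?_ (h4 0)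
      intro b
      refine (h1 0).adjoin (h2 0) _ ?_ b.1 b.2
      rintro _ ⟨i, rfl⟩
      exact h3 _ _ (Fin.succ_pos i)
    have h7 := (h5.option_iff_transcendental (y 0)).2 h6
    have h8 := h7.comp (finSuccEquiv n) (finSuccEquiv n).injective
    convert h8 using 1
    funext i
    refine Fin.cases ?_ (fun i => ?_) i <;> simp

variable {K : Type*} [Field K] {g : Type*} [LieRing g] [LieAlgebra K g]
variable {σ : g ≃ₗ⁅K⁆ g}
variable {P : SymmetricAlgebra K g →ₗ[K] SymmetricAlgebra K g →ₗ[K] SymmetricAlgebra K g}

lemma IsLiePoisson0.isDer_right (h : IsLiePoisson0 σ P) (a : SymmetricAlgebra K g) :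
    IsDer (fun c => P a c) :=
  ⟨fun _ _ => by simp, fun b c => h.leibniz_right a b c⟩

lemma IsLiePoisson0.isDer_left (h : IsLiePoisson0 σ P) (c : SymmetricAlgebra K g) :
    IsDer (fun a => P a c) :=
  ⟨fun _ _ => by simp, fun a b => h.leibniz_left a b c⟩

lemma IsLiePoisson0.right_algebraMap (h : IsLiePoisson0 σ P) (a : SymmetricAlgebra K g) (r : K) :
    P a (algebraMap K _ r) = 0 := by
  rw [Algebra.algebraMap_eq_smul_one, map_smul, (h.isDer_right a).one, smul_zero]

lemma IsLiePoisson0.left_algebraMap (h : IsLiePoisson0 σ P) (c : SymmetricAlgebra K g) (r : K) :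
    P (algebraMap K _ r) c = 0 := by
  rw [Algebra.algebraMap_eq_smul_one, map_smul, LinearMap.smul_apply, (h.isDer_left c).one,
    smul_zero]

lemma cbr_skew (x y : g) : cbr σ x y = - cbr σ y x := by
  unfold cbr
  rw [← lie_skew (ev σ x) (ev σ y), ← lie_skew (ev σ x) (od σ y), ← lie_skew (od σ x) (ev σ y)]
  abel

lemma IsLiePoisson0.skew (h : IsLiePoisson0 σ P) (a c : SymmetricAlgebra K g) :
    P a c = - P c a := by
  induction a using SymmetricAlgebra.induction with
  | algebraMap r => rw [h.left_algebraMap, h.right_algebraMap, neg_zero]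
  | ι x =>
    induction c using SymmetricAlgebra.induction with
    | algebraMap r => rw [h.left_algebraMap, h.right_algebraMap, neg_zero]
    | ι y => rw [h.on_generators, h.on_generators, cbr_skew, map_neg]
    | mul a b ha hb => rw [h.leibniz_left, h.leibniz_right, ha, hb]; ring
    | add a b ha hb => simp only [map_add, LinearMap.add_apply, ha, hb]; ring
  | mul a b ha hb => rw [h.leibniz_left, h.leibniz_right, ha, hb]; ring
  | add a b ha hb => simp only [map_add, LinearMap.add_apply, ha, hb]; ring

lemma IsLiePoisson0.unique (h : IsLiePoisson0 σ P)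
    {P' : SymmetricAlgebra K g →ₗ[K] SymmetricAlgebra K g →ₗ[K] SymmetricAlgebra K g}
    (h' : IsLiePoisson0 σ P') : P' = P := by
  refine LinearMap.ext fun a => LinearMap.ext fun c => ?_
  induction a using SymmetricAlgebra.induction with
  | algebraMap r => rw [h.left_algebraMap, h'.left_algebraMap]
  | ι x =>
    induction c using SymmetricAlgebra.induction with
    | algebraMap r => rw [h.right_algebraMap, h'.right_algebraMap]
    | ι y => rw [h.on_generators, h'.on_generators]
    | mul a b ha hb => rw [h.leibniz_right, h'.leibniz_right, ha, hb]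
    | add a b ha hb => simp only [map_add, ha, hb]
  | mul a b ha hb => rw [h.leibniz_left, h'.leibniz_left, ha, hb]
  | add a b ha hb => simp only [map_add, LinearMap.add_apply, ha, hb]

lemma IsLiePoisson0.central (h : IsLiePoisson0 σ P) (a : SymmetricAlgebra K g)
    (ha : ∀ x, P a (SymmetricAlgebra.ι K g x) = 0) (c : SymmetricAlgebra K g) : P a c = 0 := by
  induction c using SymmetricAlgebra.induction with
  | algebraMap r => rw [h.right_algebraMap]
  | ι y => exact ha y
  | mul a b ha hb => rw [h.leibniz_right, ha, hb]; simp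
  | add a b ha hb => simp only [map_add, ha, hb, add_zero]

lemma IsLiePoisson0.scale (h : IsLiePoisson0 σ P) (L : g →ₗ[K] g) (s : K)
    (hL : ∀ x y, cbr σ (L x) (L y) = s • L (cbr σ x y)) (a c : SymmetricAlgebra K g) :
    P (SymmetricAlgebra.lift (SymmetricAlgebra.ι K g ∘ₗ L) a)
      (SymmetricAlgebra.lift (SymmetricAlgebra.ι K g ∘ₗ L) c) =
      s • SymmetricAlgebra.lift (SymmetricAlgebra.ι K g ∘ₗ L) (P a c) := by
  induction a using SymmetricAlgebra.induction with
  | algebraMap r => rw [AlgHom.commutes, h.left_algebraMap, h.left_algebraMap]; simp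
  | ι x =>
    induction c using SymmetricAlgebra.induction with
    | algebraMap r => rw [AlgHom.commutes, h.right_algebraMap, h.right_algebraMap]; simp
    | ι y =>
      simp only [SymmetricAlgebra.lift_ι_apply, LinearMap.comp_apply, h.on_generators, hL,
        map_smul]
    | mul a b ha hb =>
      rw [map_mul, h.leibniz_right, h.leibniz_right, ha, hb]
      simp only [map_add, map_mul, smul_add, mul_smul_comm]
    | add a b ha hb => simp only [map_add, ha, hb, smul_add]
  | mul a b ha hb =>
    rw [map_mul, h.leibniz_left, h.leibniz_left, ha, hb]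
    simp only [map_add, map_mul, smul_add, mul_smul_comm]
  | add a b ha hb => simp only [map_add, LinearMap.add_apply, ha, hb, smul_add]

/-- bilinear version of the contracted bracket -/
noncomputable def cbrL (σ : g ≃ₗ⁅K⁆ g) : g →ₗ[K] g →ₗ[K] g :=
  LinearMap.mk₂ K (cbr σ)
    (fun a b c => by simp only [cbr, map_add, add_lie]; abel)
    (fun r a c => by simp only [cbr, map_smul, smul_lie, smul_add])
    (fun a b c => by simp only [cbr, map_add, lie_add]; abel)
    (fun r a c => by simp only [cbr, map_smul, lie_smul, smul_add])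

lemma cbrL_apply (x y : g) : cbrL σ x y = cbr σ x y := rfl

lemma mem_stab (ξ : Module.Dual K g) (x : g) : x ∈ stab σ ξ ↔ ∀ y, ξ (cbr σ x y) = 0 := Iff.rfl

section basis
variable {n : ℕ} (b : Module.Basis (Fin n) K g)

/-- partial derivatives on the symmetric algebra -/
noncomputable def pd (i : Fin n) : SymmetricAlgebra K g →ₗ[K] SymmetricAlgebra K g :=
  (SymmetricAlgebra.equivMvPolynomial b).symm.toLinearMap ∘ₗ
    (MvPolynomial.pderiv i : Derivation K (MvPolynomial (Fin n) K) _).toLinearMap ∘ₗ
      (SymmetricAlgebra.equivMvPolynomial b).toLinearMap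

lemma pd_apply (i : Fin n) (a : SymmetricAlgebra K g) :
    pd b i a = (SymmetricAlgebra.equivMvPolynomial b).symm
      (MvPolynomial.pderiv i (SymmetricAlgebra.equivMvPolynomial b a)) := rfl

lemma pd_mul (i : Fin n) (a c : SymmetricAlgebra K g) :
    pd b i (a * c) = a * pd b i c + c * pd b i a := by
  simp only [pd_apply, map_mul, Derivation.leibniz, smul_eq_mul, map_add,
    AlgEquiv.symm_apply_apply]

lemma pd_isDer (i : Fin n) : IsDer (fun a => pd b i a) :=
  ⟨fun _ _ => by simp, pd_mul b i⟩

lemma pd_algebraMap (i : Fin n) (r : K) : pd b i (algebraMap K _ r) = 0 := by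
  rw [Algebra.algebraMap_eq_smul_one, map_smul, (pd_isDer b i).one, smul_zero]

lemma pd_ι (i j : Fin n) :
    pd b i (SymmetricAlgebra.ι K g (b j)) = if i = j then 1 else 0 := by
  rw [pd_apply, SymmetricAlgebra.equivMvPolynomial_ι_apply, MvPolynomial.pderiv_X]
  by_cases h : i = j
  · subst h; simp
  · simp [h, Ne.symm h]

include b in
lemma exists_isLiePoisson (σ : g ≃ₗ⁅K⁆ g) : ∃ P, IsLiePoisson0 σ P := by
  let c : Fin n → Fin n → SymmetricAlgebra K g :=
    fun i j => SymmetricAlgebra.ι K g (cbr σ (b i) (b j))
  let P : SymmetricAlgebra K g →ₗ[K] SymmetricAlgebra K g →ₗ[K] SymmetricAlgebra K g :=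
    LinearMap.mk₂ K (fun a e => ∑ i, ∑ j, pd b i a * pd b j e * c i j)
      (fun a a' e => by simp only [map_add, add_mul, Finset.sum_add_distrib])
      (fun r a e => by simp only [map_smul, smul_mul_assoc, Finset.smul_sum])
      (fun a e e' => by simp only [map_add, add_mul, mul_add, Finset.sum_add_distrib])
      (fun r a e => by simp only [map_smul, smul_mul_assoc, mul_smul_comm, Finset.smul_sum])
  have hP : ∀ a e, P a e = ∑ i, ∑ j, pd b i a * pd b j e * c i j := fun _ _ => rfl
  refine ⟨P, ?_, ?_, ?_⟩
  · intro a a' e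
    simp only [hP, pd_mul, Finset.mul_sum, ← Finset.sum_add_distrib]
    refine Finset.sum_congr rfl fun i _ => Finset.sum_congr rfl fun j _ => by ring
  · intro a e e'
    simp only [hP, pd_mul, Finset.mul_sum, ← Finset.sum_add_distrib]
    refine Finset.sum_congr rfl fun i _ => Finset.sum_congr rfl fun j _ => by ring
  · have : (P.compl₁₂ (SymmetricAlgebra.ι K g) (SymmetricAlgebra.ι K g)) =
        (cbrL σ).compr₂ (SymmetricAlgebra.ι K g) := by
      refine b.ext fun i => b.ext fun j => ?_
      simp only [LinearMap.compl₁₂_apply, LinearMap.compr₂_apply, hP, pd_ι, cbrL_apply]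
      simp [c]
    intro x y
    exact LinearMap.congr_fun₂ this x y

include b in
lemma trdeg_symm : Cardinal.lift.{0} (Algebra.trdeg K (SymmetricAlgebra K g)) = n := by
  have h := (SymmetricAlgebra.equivMvPolynomial b).lift_trdeg_eq
  rw [MvPolynomial.trdeg_of_isDomain] at h
  simp only [Cardinal.mk_fintype, Fintype.card_fin, Cardinal.lift_natCast] at h
  simpa using h

lemma prime_ι {M : Type*} [AddCommGroup M] [Module K M] (b : Module.Basis (Fin n) K M)
    (i : Fin n) : Prime (SymmetricAlgebra.ι K M (b i)) := by
  rw [← MulEquiv.prime_iff (SymmetricAlgebra.equivMvPolynomial b),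
    SymmetricAlgebra.equivMvPolynomial_ι_apply]
  exact MvPolynomial.X_prime

include b in
lemma isUnit_const {u : SymmetricAlgebra K g} (hu : IsUnit u) :
    ∃ r : K, r ≠ 0 ∧ u = algebraMap K _ r := by
  have h1 : IsUnit (SymmetricAlgebra.equivMvPolynomial b u) := hu.map _
  rw [MvPolynomial.isUnit_iff_eq_C_of_isReduced] at h1
  obtain ⟨r, hr, h2⟩ := h1
  refine ⟨r, hr.ne_zero, ?_⟩
  apply (SymmetricAlgebra.equivMvPolynomial b).injective
  rw [h2, AlgEquiv.commutes]
  rfl

end basis

lemma IsPolynomial0.decomp {A : Subalgebra K (SymmetricAlgebra K g)} (h : IsPolynomial0 A) :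
    DecompositionMonoid A := by
  obtain ⟨s, hs, rfl⟩ := h
  have e := hs.aevalEquiv
  rw [Subtype.range_coe] at e
  exact MulEquiv.decompositionMonoid e.symm.toMulEquiv

end Pool.Agent.H731Z.PC
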