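import Pool.Agent.H731Z.PC.Ex

set_option linter.unusedSectionVars false

namespace Pool.Agent.H731Z.PC

variable {K : Type*} [Field K]

/-- the generators -/
noncomputable def X (K : Type*) [Field K] (i : Fin 6) : SymmetricAlgebra K (G K) :=
  SymmetricAlgebra.ι K (G K) (G.b i)

/-- diagonal linear maps -/
def G.diag (d : Fin 6 → K) : G K →ₗ[K] G K where
  toFun v := G.mk (d 0 * v.c 0) (d 1 * v.c 1) (d 2 * v.c 2) (d 3 * v.c 3) (d 4 * v.c 4)
    (d 5 * v.c 5)
  map_add' v w := by apply G.ext6 <;> simp <;> ring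
  map_smul' r v := by apply G.ext6 <;> simp <;> ring

lemma G.diag_b (d : Fin 6 → K) (i : Fin 6) : G.diag d (G.b i) = d i • G.b i := by
  show G.mk _ _ _ _ _ _ = _
  fin_cases i <;> apply G.ext6 <;> simp [G.b_c]

noncomputable def dm (d : Fin 6 → K) :
    SymmetricAlgebra K (G K) →ₐ[K] SymmetricAlgebra K (G K) :=
  SymmetricAlgebra.lift (SymmetricAlgebra.ι K (G K) ∘ₗ G.diag d)

lemma dm_X (d : Fin 6 → K) (i : Fin 6) : dm d (X K i) = d i • X K i := by
  simp [dm, X, G.diag_b]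

lemma hom_ext {A : Type*} [CommRing A] [Algebra K A] {φ ψ : SymmetricAlgebra K (G K) →ₐ[K] A}
    (h : ∀ i, φ (X K i) = ψ (X K i)) : φ = ψ := by
  apply SymmetricAlgebra.algHom_ext
  exact G.b.ext fun i => h i

/-- evaluation at a point -/
noncomputable def evl (p : Fin 6 → K) : SymmetricAlgebra K (G K) →ₐ[K] K :=
  SymmetricAlgebra.lift (G.b.constr K p)

lemma evl_X (p : Fin 6 → K) (i : Fin 6) : evl p (X K i) = p i := by
  simp [evl, X]

lemma prime_X (i : Fin 6) : Prime (X K i) := by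
  unfold X
  exact prime_ι G.b i

lemma X_ne (i : Fin 6) : X K i ≠ 0 := (prime_X i).ne_zero

instance [CharZero K] : CharZero (SymmetricAlgebra K (G K)) :=
  charZero_of_injective_algebraMap (algebraMap K _).injective

variable [CharZero K]

lemma G.codim : HasCodim0 (G.σ : G K ≃ₗ⁅K⁆ G K) 3 := by
  let P1 := RingHom.ker (dm (K := K) ![1, 1, 1, 0, 1, 1])
  let P2 := RingHom.ker (dm (K := K) ![1, 1, 1, 0, 0, 1])
  let P3 := RingHom.ker (dm (K := K) ![1, 1, 1, 0, 0, 0])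
  have i1 : P1.IsPrime := RingHom.ker_isPrime _
  have i2 : P2.IsPrime := RingHom.ker_isPrime _
  have i3 : P3.IsPrime := RingHom.ker_isPrime _
  have h01 : (⊥ : Ideal _) < P1 := by
    refine bot_lt_iff_ne_bot.2 fun h => ?_
    have : X K 3 ∈ P1 := by simp [P1, dm_X]
    rw [h] at this
    exact X_ne 3 this
  have h12 : P1 < P2 := by
    refine lt_of_le_of_ne (fun a ha => ?_) fun h => ?_
    · have e : dm (K := K) ![1, 1, 1, 0, 0, 1] =
          (dm ![1, 1, 1, 0, 0, 1]).comp (dm ![1, 1, 1, 0, 1, 1]) :=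
        hom_ext fun i => by fin_cases i <;> simp [dm_X]
      rw [RingHom.mem_ker] at ha ⊢
      rw [e, AlgHom.comp_apply, ha, map_zero]
    · have : X K 4 ∈ P2 := by simp [P2, dm_X]
      rw [← h] at this
      simp [P1, dm_X, X_ne] at this
  have h23 : P2 < P3 := by
    refine lt_of_le_of_ne (fun a ha => ?_) fun h => ?_
    · have e : dm (K := K) ![1, 1, 1, 0, 0, 0] =
          (dm ![1, 1, 1, 0, 0, 0]).comp (dm ![1, 1, 1, 0, 0, 1]) :=
        hom_ext fun i => by fin_cases i <;> simp [dm_X]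
      rw [RingHom.mem_ker] at ha ⊢
      rw [e, AlgHom.comp_apply, ha, map_zero]
    · have : X K 5 ∈ P3 := by simp [P3, dm_X]
      rw [← h] at this
      simp [P2, dm_X, X_ne] at this
  have h3 : P3 ≤ vanishing0 (sing (G.σ : G K ≃ₗ⁅K⁆ G K)) := by
    intro a ha
    simp only [vanishing0, Ideal.mem_iInf]
    intro ξ hξ
    obtain ⟨h3, h4, h5⟩ := G.sing_sub ξ hξ
    have e : (SymmetricAlgebra.lift (ξ : G K →ₗ[K] K)) =
        (SymmetricAlgebra.lift (ξ : G K →ₗ[K] K)).comp (dm ![1, 1, 1, 0, 0, 0]) :=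
      hom_ext fun i => by
        rw [AlgHom.comp_apply, dm_X]
        fin_cases i <;> simp [X, h3, h4, h5]
    rw [RingHom.mem_ker] at ha ⊢
    rw [e, AlgHom.comp_apply, ha, map_zero]
  have a1 := Ideal.height_add_one_le_of_lt_of_isPrime h01
  have a2 := Ideal.height_add_one_le_of_lt_of_isPrime h12
  have a3 := Ideal.height_add_one_le_of_lt_of_isPrime h23
  have a4 := Ideal.height_mono h3
  rw [Ideal.height_bot] at a1
  unfold HasCodim0
  calc ((3 : ℕ) : ℕ∞) = 0 + 1 + 1 + 1 := by norm_num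
    _ ≤ P1.height + 1 + 1 := by gcongr
    _ ≤ P2.height + 1 := by gcongr
    _ ≤ P3.height := a3
    _ ≤ _ := a4

variable {P : SymmetricAlgebra K (G K) →ₗ[K] SymmetricAlgebra K (G K) →ₗ[K]
  SymmetricAlgebra K (G K)}

lemma table (h : IsLiePoisson0 G.σ P) :
    (P (X K 0) (X K 0) = 0 ∧ P (X K 0) (X K 1) = X K 2 ∧ P (X K 0) (X K 2) = -2 * X K 0 ∧
      P (X K 0) (X K 3) = 0 ∧ P (X K 0) (X K 4) = X K 5 ∧ P (X K 0) (X K 5) = -2 * X K 3) ∧
    (P (X K 1) (X K 0) = -X K 2 ∧ P (X K 1) (X K 1) = 0 ∧ P (X K 1) (X K 2) = 2 * X K 1 ∧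
      P (X K 1) (X K 3) = -X K 5 ∧ P (X K 1) (X K 4) = 0 ∧ P (X K 1) (X K 5) = 2 * X K 4) ∧
    (P (X K 2) (X K 0) = 2 * X K 0 ∧ P (X K 2) (X K 1) = -2 * X K 1 ∧ P (X K 2) (X K 2) = 0 ∧
      P (X K 2) (X K 3) = 2 * X K 3 ∧ P (X K 2) (X K 4) = -2 * X K 4 ∧ P (X K 2) (X K 5) = 0) ∧
    (P (X K 3) (X K 0) = 0 ∧ P (X K 3) (X K 1) = X K 5 ∧ P (X K 3) (X K 2) = -2 * X K 3 ∧
      P (X K 3) (X K 3) = 0 ∧ P (X K 3) (X K 4) = 0 ∧ P (X K 3) (X K 5) = 0) ∧
    (P (X K 4) (X K 0) = -X K 5 ∧ P (X K 4) (X K 1) = 0 ∧ P (X K 4) (X K 2) = 2 * X K 4 ∧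
      P (X K 4) (X K 3) = 0 ∧ P (X K 4) (X K 4) = 0 ∧ P (X K 4) (X K 5) = 0) ∧
    (P (X K 5) (X K 0) = 2 * X K 3 ∧ P (X K 5) (X K 1) = -2 * X K 4 ∧ P (X K 5) (X K 2) = 0 ∧
      P (X K 5) (X K 3) = 0 ∧ P (X K 5) (X K 4) = 0 ∧ P (X K 5) (X K 5) = 0) := by
  have two : ∀ a : SymmetricAlgebra K (G K), (2 : K) • a = 2 * a := fun a => by
    rw [Algebra.smul_def, map_ofNat]
  simp only [X, h.on_generators, G.cbr_apply, G.lin_mk, G.b_c]
  simp [two]

noncomputable def C1 (K : Type*) [Field K] := X K 5 * X K 5 + 4 * (X K 3 * X K 4)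
noncomputable def C2 (K : Type*) [Field K] := X K 2 * X K 5 + 2 * (X K 0 * X K 4 + X K 1 * X K 3)
noncomputable def Phi (K : Type*) [Field K] := X K 3 * X K 5
noncomputable def ww (K : Type*) [Field K] := X K 0 * X K 5 + X K 3 * X K 2
noncomputable def ff (K : Type*) [Field K] := 4 * (X K 3 * X K 4 * C2 K) + Phi K * ww K
noncomputable def gg (K : Type*) [Field K] :=
  (4 * X K 4 * C2 K + X K 5 * ww K) * (X K 3 * ww K - X K 5 * C2 K)

omit [CharZero K] in
lemma rel : Phi K * gg K = ff K * (ff K - C1 K * C2 K) := by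
  simp only [Phi, gg, ff, C1]; ring

lemma num (h : IsLiePoisson0 G.σ P) (a : SymmetricAlgebra K (G K)) :
    P a 2 = 0 ∧ P a 4 = 0 ∧ P 2 a = 0 ∧ P 4 a = 0 := by
  refine ⟨?_, ?_, ?_, ?_⟩
  · rw [← map_ofNat (algebraMap K _) 2, h.right_algebraMap]
  · rw [← map_ofNat (algebraMap K _) 4, h.right_algebraMap]
  · rw [← map_ofNat (algebraMap K _) 2, h.left_algebraMap]
  · rw [← map_ofNat (algebraMap K _) 4, h.left_algebraMap]

lemma central_of (h : IsLiePoisson0 G.σ P) (a : SymmetricAlgebra K (G K))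
    (ha : ∀ i, P a (X K i) = 0) (c : SymmetricAlgebra K (G K)) : P a c = 0 := by
  refine h.central a (fun x => ?_) c
  have : (P a) ∘ₗ SymmetricAlgebra.ι K (G K) = 0 := G.b.ext fun i => ha i
  exact LinearMap.congr_fun this x

lemma C1_central (h : IsLiePoisson0 G.σ P) (c : SymmetricAlgebra K (G K)) : P (C1 K) c = 0 := by
  refine central_of h _ (fun i => ?_) c
  fin_cases i <;>
  simp only [C1, map_add, LinearMap.add_apply, h.leibniz_left, num h, Fin.zero_eta, Fin.mk_one,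
    Fin.reduceFinMk, Fin.isValue, table h] <;> ring

lemma C2_central (h : IsLiePoisson0 G.σ P) (c : SymmetricAlgebra K (G K)) : P (C2 K) c = 0 := by
  refine central_of h _ (fun i => ?_) c
  fin_cases i <;>
  simp only [C2, map_add, LinearMap.add_apply, h.leibniz_left, num h, Fin.zero_eta, Fin.mk_one,
    Fin.reduceFinMk, Fin.isValue, table h] <;> ring

lemma central_C1 (h : IsLiePoisson0 G.σ P) (c : SymmetricAlgebra K (G K)) : P c (C1 K) = 0 := by
  rw [h.skew, C1_central h, neg_zero]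

lemma central_C2 (h : IsLiePoisson0 G.σ P) (c : SymmetricAlgebra K (G K)) : P c (C2 K) = 0 := by
  rw [h.skew, C2_central h, neg_zero]

lemma self_zero (h : IsLiePoisson0 G.σ P) (c : SymmetricAlgebra K (G K)) : P c c = 0 := by
  have := h.skew c c
  have h2 : (2 : K) • P c c = 0 := by rw [two_smul]; linear_combination this
  exact (smul_eq_zero.1 h2).resolve_left two_ne_zero

lemma Phi_ff (h : IsLiePoisson0 G.σ P) : P (Phi K) (ff K) = 0 := by
  simp only [ff, Phi, ww, map_add, h.leibniz_left, h.leibniz_right, num h,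
    central_C2 h, table h]
  ring

lemma ff_x (h : IsLiePoisson0 G.σ P) : P (ff K) (X K 3) = 2 * X K 3 ^ 3 * X K 5 := by
  simp only [ff, Phi, ww, map_add, LinearMap.add_apply, h.leibniz_left, h.leibniz_right, num h,
    C2_central h, table h]
  ring

lemma Phi_x (h : IsLiePoisson0 G.σ P) : P (Phi K) (X K 3) = 0 := by
  simp only [Phi, h.leibniz_left, table h]
  ring

lemma Phi_E (h : IsLiePoisson0 G.σ P) : P (Phi K) (X K 0) = 2 * X K 3 ^ 2 := by
  simp only [Phi, h.leibniz_left, table h]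
  ring

lemma ff_x_ne (h : IsLiePoisson0 G.σ P) : P (ff K) (X K 3) ≠ 0 := by
  rw [ff_x h]
  simp [X_ne]

/-- the centraliser of `Phi` and `ff` -/
def AA (h : IsLiePoisson0 G.σ P) : Subalgebra K (SymmetricAlgebra K (G K)) where
  carrier := {a | P (Phi K) a = 0 ∧ P (ff K) a = 0}
  mul_mem' := by
    rintro a b ⟨a1, a2⟩ ⟨b1, b2⟩
    constructor <;> simp [h.leibniz_right, *]
  add_mem' := by
    rintro a b ⟨a1, a2⟩ ⟨b1, b2⟩
    constructor <;> simp [*]
  algebraMap_mem' r := ⟨h.right_algebraMap _ _, h.right_algebraMap _ _⟩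

lemma mem_AA (h : IsLiePoisson0 G.σ P) (a : SymmetricAlgebra K (G K)) :
    a ∈ AA h ↔ P (Phi K) a = 0 ∧ P (ff K) a = 0 := Iff.rfl

lemma Phi_mem (h : IsLiePoisson0 G.σ P) : Phi K ∈ AA h :=
  ⟨self_zero h _, by rw [h.skew, Phi_ff h, neg_zero]⟩
lemma ff_mem (h : IsLiePoisson0 G.σ P) : ff K ∈ AA h := ⟨Phi_ff h, self_zero h _⟩
lemma C1_mem (h : IsLiePoisson0 G.σ P) : C1 K ∈ AA h := ⟨central_C1 h _, central_C1 h _⟩
lemma C2_mem (h : IsLiePoisson0 G.σ P) : C2 K ∈ AA h := ⟨central_C2 h _, central_C2 h _⟩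

omit [CharZero K] in
lemma Phi_ne : Phi K ≠ 0 := mul_ne_zero (X_ne 3) (X_ne 5)

lemma gg_mem (h : IsLiePoisson0 G.σ P) : gg K ∈ AA h := by
  have hm : Phi K * gg K ∈ AA h := by
    rw [rel]
    exact (AA h).mul_mem (ff_mem h) ((AA h).sub_mem (ff_mem h)
      ((AA h).mul_mem (C1_mem h) (C2_mem h)))
  obtain ⟨h1, h2⟩ := hm
  obtain ⟨h3, h4⟩ := Phi_mem h
  rw [h.leibniz_right, h3, mul_zero, add_zero] at h1
  rw [h.leibniz_right, h4, mul_zero, add_zero] at h2
  exact ⟨(mul_eq_zero.1 h1).resolve_left Phi_ne, (mul_eq_zero.1 h2).resolve_left Phi_ne⟩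

lemma trdeg_le (h : IsLiePoisson0 G.σ P) : Algebra.trdeg K (AA h) ≤ 4 := by
  have h1 : AlgebraicIndependent (AA h) ![X K 0, X K 3] := by
    refine algInd_of_der Subtype.val_injective 2 _ ![fun c => P (Phi K) c, fun c => P (ff K) c]
      ?_ ?_ ?_ ?_
    · intro i; fin_cases i <;> exact h.isDer_right _
    · intro i b; fin_cases i
      exacts [b.2.1, b.2.2]
    · intro i j hij
      fin_cases i <;> fin_cases j <;> simp at hij ⊢
      exact Phi_x h
    · intro i; fin_cases i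
      · simp [Phi_E h, X_ne]
      · exact ff_x_ne h
  have h2 := h1.lift_cardinalMk_le_trdeg
  have h3 := trdeg_add_le (R := K) (S := AA h) (A := SymmetricAlgebra K (G K))
  have h4 := trdeg_symm (K := K) (G.b (K := K))
  simp only [Cardinal.mk_fintype, Fintype.card_fin, Cardinal.lift_uzero, Cardinal.lift_natCast]
    at h2 h4
  rw [h4] at h3
  have h5 : Algebra.trdeg K (AA h) + ((2 : ℕ) : Cardinal) ≤ 4 + ((2 : ℕ) : Cardinal) := by
    refine le_trans (le_trans (by gcongr) h3) (le_of_eq ?_)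
    norm_num
  exact (Cardinal.add_nat_le_add_nat_iff 2).1 h5

omit [CharZero K] in
lemma pd_X (i j : Fin 6) : pd G.b i (X K j) = if i = j then 1 else 0 := pd_ι _ i j

lemma pd_num (i : Fin 6) : pd (G.b (K := K)) i 2 = 0 ∧ pd (G.b (K := K)) i 4 = 0 := by
  constructor
  · rw [← map_ofNat (algebraMap K _) 2, pd_algebraMap]
  · rw [← map_ofNat (algebraMap K _) 4, pd_algebraMap]

lemma x_ff_ne (h : IsLiePoisson0 G.σ P) : P (X K 3) (ff K) ≠ 0 := by
  rw [h.skew, neg_ne_zero]; exact ff_x_ne h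

lemma indep4 (h : IsLiePoisson0 G.σ P) : AlgebraicIndependent K ![ff K, C2 K, C1 K, Phi K] := by
  refine algInd_of_der (algebraMap K _).injective 4 _
    ![fun c => P (X K 3) c, fun c => pd G.b 1 c, fun c => pd G.b 4 c, fun c => pd G.b 3 c]
    ?_ ?_ ?_ ?_
  · intro i; fin_cases i
    exacts [h.isDer_right _, pd_isDer _ _, pd_isDer _ _, pd_isDer _ _]
  · intro i b; fin_cases i
    exacts [h.right_algebraMap _ _, pd_algebraMap _ _ _, pd_algebraMap _ _ _, pd_algebraMap _ _ _]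
  · intro i j hij
    fin_cases i <;> fin_cases j <;> simp at hij ⊢
    · exact central_C2 h _
    · exact central_C1 h _
    · rw [h.skew, Phi_x h, neg_zero]
    · simp [C1, pd_mul, pd_X, pd_num]
    · simp [Phi, pd_mul, pd_X]
    · simp [Phi, pd_mul, pd_X]
  · intro i; fin_cases i
    · exact x_ff_ne h
    · simp [C2, pd_mul, pd_X, pd_num, X_ne]
    · simp [C1, pd_mul, pd_X, pd_num, X_ne]
    · simp [Phi, pd_mul, pd_X, X_ne]

lemma trdeg_eq (h : IsLiePoisson0 G.σ P) : Algebra.trdeg K (AA h) = 4 := by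
  refine le_antisymm (trdeg_le h) ?_
  have h1 : AlgebraicIndependent K
      ![(⟨_, ff_mem h⟩ : AA h), ⟨_, C2_mem h⟩, ⟨_, C1_mem h⟩, ⟨_, Phi_mem h⟩] := by
    refine AlgebraicIndependent.of_comp (AA h).val ?_
    convert indep4 h using 1
    funext i; fin_cases i <;> rfl
  simpa using h1.lift_cardinalMk_le_trdeg

lemma AA_comm (h : IsLiePoisson0 G.σ P) : IsComm0 P (AA h) := by
  intro a ha c hc
  by_contra hne
  have h6 : Transcendental (Algebra.adjoin K (Set.range ![ff K, C2 K, C1 K, Phi K])) c := by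
    refine (h.isDer_right a).transcendental Subtype.val_injective ?_ hne
    intro b
    refine (h.isDer_right a).adjoin (h.right_algebraMap a) _ ?_ b.1 b.2
    rintro _ ⟨i, rfl⟩
    fin_cases i
    · show P a (ff K) = 0
      rw [h.skew, ha.2, neg_zero]
    · exact central_C2 h _
    · exact central_C1 h _
    · show P a (Phi K) = 0
      rw [h.skew, ha.1, neg_zero]
  have h7 := ((indep4 h).option_iff_transcendental c).2 h6
  have h1 : AlgebraicIndependent K (fun o : Option (Fin 4) => o.elim (⟨c, hc⟩ : AA h)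
      ![(⟨_, ff_mem h⟩ : AA h), ⟨_, C2_mem h⟩, ⟨_, C1_mem h⟩, ⟨_, Phi_mem h⟩]) := by
    refine AlgebraicIndependent.of_comp (AA h).val ?_
    convert h7 using 1
    funext o
    cases o with
    | none => rfl
    | some i => fin_cases i <;> rfl
  have h2 := h1.lift_cardinalMk_le_trdeg
  rw [trdeg_eq h] at h2
  simp at h2
  norm_cast at h2

lemma AA_max (h : IsLiePoisson0 G.σ P) : IsMaxComm0 P (AA h) :=
  ⟨AA_comm h, fun B hB hle => le_antisymm
    (fun a ha => ⟨hB _ (hle (Phi_mem h)) a ha, hB _ (hle (ff_mem h)) a ha⟩) hle⟩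

lemma AA_bigraded (h : IsLiePoisson0 G.σ P) : IsBigraded0 G.σ (AA h) := by
  intro s t hs ht a ha
  have hL : (s • ev G.σ + t • od G.σ : G K →ₗ[K] G K) = G.diag ![s, s, s, t, t, t] := by
    refine LinearMap.ext fun v => ?_
    simp only [LinearMap.add_apply, LinearMap.smul_apply, G.ev_apply, G.od_apply]
    show _ = G.mk _ _ _ _ _ _
    apply G.ext6 <;> simp
  rw [hL]
  have hb : ∀ x y : G K, cbr G.σ (G.diag ![s, s, s, t, t, t] x) (G.diag ![s, s, s, t, t, t] y) =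
      s • G.diag ![s, s, s, t, t, t] (cbr G.σ x y) := by
    intro x y
    simp only [G.cbr_apply]
    show G.mk _ _ _ _ _ _ = s • G.mk _ _ _ _ _ _
    apply G.ext6 <;> simp [G.diag] <;> ring
  have k := fun u => h.scale _ s hb u a
  have e1 : dm ![s, s, s, t, t, t] (Phi K) = (t ^ 2) • Phi K := by
    simp only [Phi, map_mul, dm_X]
    simp [Algebra.smul_def]; ring
  have e2 : dm ![s, s, s, t, t, t] (ff K) = (s * t ^ 3) • ff K := by
    simp only [ff, C2, ww, Phi, map_mul, map_add, dm_X, map_ofNat]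
    simp [Algebra.smul_def]; ring
  have k1 := k (Phi K)
  have k2 := k (ff K)
  change P (dm _ _) _ = _ at k1 k2
  rw [e1, ha.1, map_zero, smul_zero, map_smul, LinearMap.smul_apply] at k1
  rw [e2, ha.2, map_zero, smul_zero, map_smul, LinearMap.smul_apply] at k2
  exact ⟨(smul_eq_zero.1 k1).resolve_left (pow_ne_zero _ ht),
    (smul_eq_zero.1 k2).resolve_left (mul_ne_zero hs (pow_ne_zero _ ht))⟩

lemma AA_not_poly (h : IsLiePoisson0 G.σ P) : ¬ IsPolynomial0 (AA h) := by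
  intro hp
  have := hp.decomp
  have hd : (⟨_, Phi_mem h⟩ : AA h) ∣ ⟨_, ff_mem h⟩ *
      (⟨_, ff_mem h⟩ - ⟨_, C1_mem h⟩ * ⟨_, C2_mem h⟩) :=
    ⟨⟨_, gg_mem h⟩, Subtype.ext rel.symm⟩
  obtain ⟨u, v, hu, hv, huv⟩ := exists_dvd_and_dvd_of_dvd_mul hd
  have hu' : (u : SymmetricAlgebra K (G K)) ∣ ff K := map_dvd (AA h).val hu
  have hv' : (v : SymmetricAlgebra K (G K)) ∣ ff K - C1 K * C2 K := map_dvd (AA h).val hv
  have huv' : X K 3 * X K 5 = (u : SymmetricAlgebra K (G K)) * v := congrArg Subtype.val huv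
  have n1 : ¬ X K 3 ∣ ff K - C1 K * C2 K := by
    intro hh
    have := map_dvd (evl ![0, 0, 1, 0, 0, 1]) hh
    simp [ff, C1, C2, Phi, ww, evl_X] at this
  have n2 : ¬ X K 5 ∣ ff K := by
    intro hh
    have := map_dvd (evl ![1, 0, 0, 1, 1, 0]) hh
    simp [ff, C2, Phi, ww, evl_X, map_ofNat] at this
  have d1 : X K 3 ∣ (u : SymmetricAlgebra K (G K)) :=
    ((prime_X 3).dvd_or_dvd (⟨_, huv'.symm⟩ : X K 3 ∣ _)).resolve_right
      fun hh => n1 (hh.trans hv')
  have d2 : X K 5 ∣ (v : SymmetricAlgebra K (G K)) :=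
    ((prime_X 5).dvd_or_dvd (⟨X K 3, by rw [← huv', mul_comm]⟩ : X K 5 ∣ _)).resolve_left
      fun hh => n2 (hh.trans hu')
  obtain ⟨a, ha⟩ := d1
  obtain ⟨b, hb⟩ := d2
  have hab : a * b = 1 := by
    have : Phi K * (a * b) = Phi K * 1 := by
      rw [mul_one, Phi]
      conv_rhs => rw [huv', ha, hb]
      ring
    exact mul_left_cancel₀ Phi_ne this
  obtain ⟨r, hr, har⟩ := isUnit_const G.b (IsUnit.of_mul_eq_one _ hab)
  have := u.2.2
  rw [ha, har, mul_comm, ← Algebra.smul_def, map_smul] at this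
  exact ff_x_ne h ((smul_eq_zero.1 this).resolve_left hr)

universe u

theorem main (K : Type u) [Field K] [CharZero K] :
    ∃ (g : Type u) (_ : LieRing g) (_ : LieAlgebra K g) (σ : g ≃ₗ⁅K⁆ g),
      Module.Finite K g ∧ LieAlgebra.IsSemisimple K g ∧ (∀ x, σ (σ x) = x) ∧ (∃ x, σ x ≠ x) ∧
      HasCodim0 σ 3 ∧
      ∃ P, IsLiePoisson0 σ P ∧ (∀ P', IsLiePoisson0 σ P' → P' = P) ∧
        ∃ A : Subalgebra K (SymmetricAlgebra K g), IsMaxComm0 P A ∧
          2 * Algebra.trdeg K A = (Module.finrank K g + index σ : ℕ) ∧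
          IsBigraded0 σ A ∧ ¬ IsPolynomial0 A := by
  obtain ⟨P, h⟩ := exists_isLiePoisson G.b (G.σ (K := K))
  refine ⟨G K, inferInstance, inferInstance, G.σ, inferInstance, inferInstance, ?_, ?_, G.codim,
    P, h, fun P' h' => h.unique h', AA h, AA_max h, ?_, AA_bigraded h, AA_not_poly h⟩
  · intro x; exact G.σ.left_inv x
  · refine ⟨G.b 3, fun hh => ?_⟩
    have := congrArg (fun v : G K => v.c 3) hh
    simp [G.σ_apply, G.sig, G.b_c] at this
    exact absurd this (by norm_num)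
  · rw [trdeg_eq h, G.index_eq, Module.finrank_eq_card_basis G.b]
    norm_num

end Pool.Agent.H731Z.PC
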